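import Pool.Agent.H482R3.EA.Stm

set_option autoImplicit false

/-!
# PROD: the word problem of a direct product
-/

namespace Pool.Agent.H18R2.EA

open Pool.Agent.H482R3.EA

/-- letters of the first part -/
def pV {V Wt : Type} (u : W (V ⊕ Wt)) : W V :=
  u.filterMap fun x => Sum.casesOn x.1 (fun v => some (v, x.2)) (fun _ => none)

/-- letters of the second part -/
def pW {V Wt : Type} (u : W (V ⊕ Wt)) : W Wt :=
  u.filterMap fun x => Sum.casesOn x.1 (fun _ => none) (fun w => some (w, x.2))

theorem ev_nil {S G : Type} [Group G] (f : S → G) : ev f [] = 1 := rfl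

theorem ev_cons {S G : Type} [Group G] (f : S → G) (a : S × Bool) (u : W S) :
    ev f (a :: u) = (if a.2 then f a.1 else (f a.1)⁻¹) * ev f u := by
  simp [ev]

theorem ev_hom {S G H : Type} [Group G] [Group H] (φ : G →* H) (f : S → G) (u : W S) :
    φ (ev f u) = ev (fun s => φ (f s)) u := by
  induction u with
  | nil => simp [ev_nil]
  | cons a u ih =>
    rw [ev_cons, ev_cons, map_mul, ih]
    congr 1
    split_ifs
    · rfl
    · exact map_inv φ _

theorem lift_ex {S G : Type} [Group G] (c : S → S → ℕ) (f : S → G)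
    (hf : ∀ s t, s ≠ t → c s t ≠ 0 → (f s * f t) ^ (c s t) = (f t * f s) ^ (c s t)) :
    ∃ φ : EA c →* G, ∀ s, φ (gen c s) = f s := by
  have h : ∀ r ∈ rels c, FreeGroup.lift f r = 1 := by
    rintro r ⟨s, t, hst, hc, rfl⟩
    rw [map_mul, map_inv, map_pow, map_pow, map_mul, map_mul]
    simp only [FreeGroup.lift_apply_of]
    rw [hf s t hst hc, mul_inv_cancel]
  exact ⟨PresentedGroup.toGroup h, fun s => PresentedGroup.toGroup.of h⟩

theorem ev_pV {V Wt G : Type} [Group G] (f : V ⊕ Wt → G) (h : ∀ w, f (.inr w) = 1)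
    (u : W (V ⊕ Wt)) : ev f u = ev (fun v => f (.inl v)) (pV u) := by
  induction u with
  | nil => rfl
  | cons a u ih =>
    obtain ⟨a, b⟩ := a
    rw [ev_cons, ih]
    cases a with
    | inl v =>
      have e : pV ((Sum.inl v, b) :: u : W (V ⊕ Wt)) = (v, b) :: pV u := rfl
      rw [e, ev_cons]
    | inr w =>
      have e : pV ((Sum.inr w, b) :: u : W (V ⊕ Wt)) = pV u := rfl
      rw [e]
      simp [h]

theorem ev_pW {V Wt G : Type} [Group G] (f : V ⊕ Wt → G) (h : ∀ v, f (.inl v) = 1)
    (u : W (V ⊕ Wt)) : ev f u = ev (fun w => f (.inr w)) (pW u) := by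
  induction u with
  | nil => rfl
  | cons a u ih =>
    obtain ⟨a, b⟩ := a
    rw [ev_cons, ih]
    cases a with
    | inr v =>
      have e : pW ((Sum.inr v, b) :: u : W (V ⊕ Wt)) = (v, b) :: pW u := rfl
      rw [e, ev_cons]
    | inl w =>
      have e : pW ((Sum.inl w, b) :: u : W (V ⊕ Wt)) = pW u := rfl
      rw [e]
      simp [h]

theorem ev_comm {S G : Type} [Group G] (f : S → G) (x : G) (h : ∀ s, Commute x (f s)) (u : W S) :
    Commute x (ev f u) := by
  induction u with
  | nil => exact Commute.one_right x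
  | cons a u ih =>
    rw [ev_cons]
    refine Commute.mul_right ?_ ih
    split_ifs
    · exact h a.1
    · exact (h a.1).inv_right

theorem ev_split {V Wt G : Type} [Group G] (f : V ⊕ Wt → G)
    (h : ∀ v w, Commute (f (.inr w)) (f (.inl v))) (u : W (V ⊕ Wt)) :
    ev f u = ev (fun v => f (.inl v)) (pV u) * ev (fun w => f (.inr w)) (pW u) := by
  induction u with
  | nil => simp [pV, pW, ev_nil]
  | cons a u ih =>
    obtain ⟨a, b⟩ := a
    rw [ev_cons, ih]
    cases a with
    | inl v =>
      have e : pV ((Sum.inl v, b) :: u : W (V ⊕ Wt)) = (v, b) :: pV u := rfl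
      have e' : pW ((Sum.inl v, b) :: u : W (V ⊕ Wt)) = pW u := rfl
      rw [e, e', ev_cons, mul_assoc]
    | inr w =>
      have e : pV ((Sum.inr w, b) :: u : W (V ⊕ Wt)) = pV u := rfl
      have e' : pW ((Sum.inr w, b) :: u : W (V ⊕ Wt)) = (w, b) :: pW u := rfl
      rw [e, e', ev_cons]
      have h1 : Commute (if b then f (.inr w) else (f (.inr w))⁻¹)
          (ev (fun v => f (.inl v)) (pV u)) := by
        split_ifs
        · exact ev_comm _ _ (fun v => h v w) _
        · exact (ev_comm _ _ (fun v => h v w) _).inv_left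
      show (if b then f (.inr w) else (f (.inr w))⁻¹) * _ = _
      rw [← mul_assoc, h1.eq, mul_assoc]

theorem gen_rel {S : Type} (c : S → S → ℕ) (s t : S) (hst : s ≠ t) (hc : c s t ≠ 0) :
    (gen c s * gen c t) ^ (c s t) = (gen c t * gen c s) ^ (c s t) := by
  have h : (FreeGroup.of s * FreeGroup.of t) ^ (c s t) *
      ((FreeGroup.of t * FreeGroup.of s) ^ (c s t))⁻¹ ∈ rels c := ⟨s, t, hst, hc, rfl⟩
  have h1 : PresentedGroup.mk (rels c) ((FreeGroup.of s * FreeGroup.of t) ^ (c s t) *
      ((FreeGroup.of t * FreeGroup.of s) ^ (c s t))⁻¹) = 1 :=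
    PresentedGroup.one_of_mem h
  rw [map_mul, map_inv, map_pow, map_pow, map_mul, map_mul, mul_inv_eq_one] at h1
  exact h1

theorem triv_iff {V Wt : Type} (c : V ⊕ Wt → V ⊕ Wt → ℕ) (_hs : Symm c)
    (h1 : ∀ v w, c (.inl v) (.inr w) = 1) (u : W (V ⊕ Wt)) :
    Triv c u ↔ Triv (cV c) (pV u) ∧ Triv (cW c) (pW u) := by
  constructor
  · intro h
    constructor
    · obtain ⟨φ, hφ⟩ := lift_ex (G := EA (cV c)) c (Sum.elim (gen (cV c)) (fun _ => 1)) (by
        rintro (s | s) (t | t) hst hc
        · exact gen_rel (cV c) s t (fun e => hst (by rw [e])) hc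
        · simp
        · simp
        · simp)
      have h2 := ev_hom φ (gen c) u
      rw [show ev (gen c) u = 1 from h, map_one] at h2
      have h3 : (fun s => φ (gen c s)) = Sum.elim (gen (cV c)) (fun _ => 1) := funext hφ
      rw [h3, ev_pV _ (fun w => rfl)] at h2
      exact h2.symm
    · obtain ⟨φ, hφ⟩ := lift_ex (G := EA (cW c)) c (Sum.elim (fun _ => 1) (gen (cW c))) (by
        rintro (s | s) (t | t) hst hc
        · simp
        · simp
        · simp
        · exact gen_rel (cW c) s t (fun e => hst (by rw [e])) hc)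
      have h2 := ev_hom φ (gen c) u
      rw [show ev (gen c) u = 1 from h, map_one] at h2
      have h3 : (fun s => φ (gen c s)) = Sum.elim (fun _ => 1) (gen (cW c)) := funext hφ
      rw [h3, ev_pW _ (fun w => rfl)] at h2
      exact h2.symm
  · rintro ⟨hV, hW⟩
    have hcom : ∀ v w, Commute (gen c (.inr w)) (gen c (.inl v)) := by
      intro v w
      have h2 := gen_rel c (.inl v) (.inr w) Sum.inl_ne_inr (by rw [h1]; exact one_ne_zero)
      rw [h1, pow_one, pow_one] at h2
      exact h2.symm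
    show ev (gen c) u = 1
    rw [ev_split (gen c) hcom]
    obtain ⟨φ, hφ⟩ := lift_ex (G := EA c) (cV c) (fun v => gen c (.inl v)) (by
      intro s t hst hc
      exact gen_rel c (.inl s) (.inl t) (fun e => hst (Sum.inl_injective e)) hc)
    obtain ⟨ψ, hψ⟩ := lift_ex (G := EA c) (cW c) (fun v => gen c (.inr v)) (by
      intro s t hst hc
      exact gen_rel c (.inr s) (.inr t) (fun e => hst (Sum.inr_injective e)) hc)
    have h2 := ev_hom φ (gen (cV c)) (pV u)
    have h3 := ev_hom ψ (gen (cW c)) (pW u)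
    rw [show ev (gen (cV c)) (pV u) = 1 from hV, map_one] at h2
    rw [show ev (gen (cW c)) (pW u) = 1 from hW, map_one] at h3
    have h4 : (fun s => φ (gen (cV c) s)) = fun v => gen c (.inl v) := funext hφ
    have h5 : (fun s => ψ (gen (cW c) s)) = fun v => gen c (.inr v) := funext hψ
    rw [h4] at h2
    rw [h5] at h3
    rw [← h2, ← h3, mul_one]

theorem pV_prim (a b : ℕ) : Primrec (pV : W (Fin a ⊕ Fin b) → W (Fin a)) := by
  refine Primrec.listFilterMap Primrec.id ?_
  refine Primrec.sumCasesOn (f := fun p : W (Fin a ⊕ Fin b) × ((Fin a ⊕ Fin b) × Bool) => p.2.1)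
    (Primrec.fst.comp Primrec.snd) ?_ ?_
  · refine Primrec.option_some.comp₂ ?_
    exact Primrec₂.pair.comp₂ Primrec₂.right
      ((Primrec.snd.comp (Primrec.snd)).comp₂ Primrec₂.left)
  · exact (Primrec.const none).to₂

theorem pW_prim (a b : ℕ) : Primrec (pW : W (Fin a ⊕ Fin b) → W (Fin b)) := by
  refine Primrec.listFilterMap Primrec.id ?_
  refine Primrec.sumCasesOn (f := fun p : W (Fin a ⊕ Fin b) × ((Fin a ⊕ Fin b) × Bool) => p.2.1)
    (Primrec.fst.comp Primrec.snd) ?_ ?_
  · exact (Primrec.const none).to₂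
  · refine Primrec.option_some.comp₂ ?_
    exact Primrec₂.pair.comp₂ Primrec₂.right
      ((Primrec.snd.comp (Primrec.snd)).comp₂ Primrec₂.left)

theorem t_PROD : S_PROD := by
  intro a b c hs h1 hV hW
  obtain ⟨f, hf, hf'⟩ := ComputablePred.computable_iff.1 hV
  obtain ⟨g, hg, hg'⟩ := ComputablePred.computable_iff.1 hW
  rw [ComputablePred.computable_iff]
  refine ⟨fun u => f (pV u) && g (pW u), ?_, ?_⟩
  · exact Primrec.and.to_comp.comp (hf.comp (pV_prim a b).to_comp) (hg.comp (pW_prim a b).to_comp)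
  · funext u
    apply propext
    rw [triv_iff c hs h1 u, hf', hg']
    simp

end Pool.Agent.H18R2.EA
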